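import Mathlib

/-!
# The simultaneous BKR product can be strictly smaller than all bracketed products

For every `r ≥ 3` there are `r` proper subsets of `{0, 1} ^ (r - 1)` whose simultaneous product is
empty (there is no room for `r` disjoint nonempty sets of coordinates), while the point `0` lies in
every bracketed product. The first three sets are `x 0 = 0 ∨ x 1 = 0`, `x 1 = 0 ∨ x 0 = 1` and
`x 0 = 0 ∨ x 1 = 0`; the set number `i ≥ 3` (counted from `0`) is `x (i - 1) = 0`.
-/

set_option autoImplicit false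

namespace Pool.Agent.Results.MP_3c3b39_pr.StrictForAllR

/-- the cylinder `[x]_K` -/
def cyl {ι S : Type} (x : ι → S) (K : Set ι) : Set (ι → S) := {y | ∀ i ∈ K, y i = x i}

/-- the binary BKR product -/
def bkr {ι S : Type} (A B : Set (ι → S)) : Set (ι → S) :=
  {x | ∃ K L : Set ι, Disjoint K L ∧ cyl x K ⊆ A ∧ cyl x L ⊆ B}

/-- the simultaneous product of `A 0, ..., A (r - 1)` -/
def simul {ι S : Type} (r : ℕ) (A : ℕ → Set (ι → S)) : Set (ι → S) :=
  {x | ∃ K : Fin r → Set ι, (∀ i j, i ≠ j → Disjoint (K i) (K j)) ∧ ∀ i, cyl x (K i) ⊆ A i}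

/-- bracketings of a word -/
inductive Br : Type
  | leaf : Br
  | node : Br → Br → Br

/-- number of factors -/
def Br.size : Br → ℕ
  | .leaf => 1
  | .node l r => l.size + r.size

/-- the product of `A s, A (s + 1), ..., A (s + T.size - 1)`, in this order, bracketed as `T` -/
def Br.val {ι S : Type} (A : ℕ → Set (ι → S)) : Br → ℕ → Set (ι → S)
  | .leaf, s => A s
  | .node l r, s => bkr (l.val A s) (r.val A (s + l.size))

/-- the intersection of all bracketed products of `A 0, ..., A (r - 1)` -/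
def inter {ι S : Type} (r : ℕ) (A : ℕ → Set (ι → S)) : Set (ι → S) :=
  {x | ∀ T : Br, T.size = r → x ∈ T.val A 0}

theorem size_pos (T : Br) : 0 < T.size := by
  induction T with
  | leaf => exact Nat.one_pos
  | node l r ih _ => exact Nat.lt_of_lt_of_le ih (Nat.le_add_right _ _)

/-- lower bound for bracketed products -/
theorem lower {ι S : Type} (A : ℕ → Set (ι → S)) (G : ℕ → ℕ → Set (ι → S))
    (h1 : ∀ s, G s 1 ⊆ A s)
    (h2 : ∀ s m n, 0 < m → 0 < n → G s (m + n) ⊆ bkr (G s m) (G (s + m) n)) (T : Br) :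
    ∀ s, G s T.size ⊆ T.val A s := by
  induction T with
  | leaf => exact h1
  | node l r ihl ihr =>
    intro s x hx
    obtain ⟨K, L, hd, hK, hL⟩ := h2 s l.size r.size (size_pos l) (size_pos r) hx
    exact ⟨K, L, hd, hK.trans (ihl s), hL.trans (ihr _)⟩

/-- the factors -/
def fac (d : ℕ) (i : ℕ) : Set (Fin (d + 2) → Bool) :=
  if i = 1 then {x | x 1 = false ∨ x 0 = true}
  else if i ≤ 2 then {x | x 0 = false ∨ x 1 = false}
  else {x | ∀ j : Fin (d + 2), (j : ℕ) + 1 = i → x j = false}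

/-- the part of the bound that concerns the coordinates `0` and `1`; `a`, `b`, `c` tell whether the
first three factors are present -/
def g (a b c : Bool) (u v : Bool) : Bool :=
  (a && b && c && !u && !v) || (a && b && !c && !v) || (!a && b && c && !v) ||
  (a && !b && !c && (!u || !v)) || (!a && b && !c && (!v || u)) ||
  (!a && !b && c && (!u || !v)) || (!a && !b && !c)

/-- the bound -/
def G (d : ℕ) (s n : ℕ) : Set (Fin (d + 2) → Bool) :=
  {x | g (decide (s = 0 ∧ 0 < n)) (decide (s ≤ 1 ∧ 1 < s + n)) (decide (s ≤ 2 ∧ 2 < s + n))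
      (x 0) (x 1) = true ∧ ∀ j : Fin (d + 2), 2 ≤ (j : ℕ) → s ≤ (j : ℕ) + 1 → (j : ℕ) + 1 < s + n →
      x j = false}

/-- which of the coordinates `0`, `1` are given to the first product -/
theorem split : ∀ a b c b' c' u v : Bool, (b && b') = false → (c && c') = false →
    (b' && c) = false → (!a || !(c || c') || (b || b')) = true →
    g a (b || b') (c || c') u v = true →
    ∃ p q : Bool, (∀ u' v' : Bool, (p = true → u' = u) → (q = true → v' = v) →
      g a b c u' v' = true) ∧ (∀ u' v' : Bool, (p = false → u' = u) → (q = false → v' = v) →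
      g false b' c' u' v' = true) := by
  decide

theorem G_split (d s m n : ℕ) (hm : 0 < m) (hn : 0 < n) :
    G d s (m + n) ⊆ bkr (G d s m) (G d (s + m) n) := by
  intro x hx
  obtain ⟨h1, h2⟩ := hx
  have e1 : decide (s = 0 ∧ 0 < m + n) = decide (s = 0 ∧ 0 < m) := by
    congr 1; simp only [eq_iff_iff]; omega
  have e2 : decide (s ≤ 1 ∧ 1 < s + (m + n)) =
      (decide (s ≤ 1 ∧ 1 < s + m) || decide (s + m ≤ 1 ∧ 1 < s + m + n)) := by
    rw [← Bool.decide_or]; congr 1; simp only [eq_iff_iff]; omega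
  have e3 : decide (s ≤ 2 ∧ 2 < s + (m + n)) =
      (decide (s ≤ 2 ∧ 2 < s + m) || decide (s + m ≤ 2 ∧ 2 < s + m + n)) := by
    rw [← Bool.decide_or]; congr 1; simp only [eq_iff_iff]; omega
  have e4 : decide (s + m = 0 ∧ 0 < n) = false := by
    rw [decide_eq_false_iff_not]; omega
  rw [e1, e2, e3] at h1
  obtain ⟨p, q, hp, hq⟩ := split _ _ _ _ _ _ _
    (by rw [← Bool.decide_and, decide_eq_false_iff_not]; omega)
    (by rw [← Bool.decide_and, decide_eq_false_iff_not]; omega)
    (by rw [← Bool.decide_and, decide_eq_false_iff_not]; omega)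
    (by
      rw [← Bool.decide_or, ← Bool.decide_or, ← decide_not, ← decide_not, ← Bool.decide_or,
        ← Bool.decide_or, decide_eq_true_iff]
      omega) h1
  refine ⟨{j | (j = 0 ∧ p = true) ∨ (j = 1 ∧ q = true) ∨ (2 ≤ (j : ℕ) ∧ (j : ℕ) + 1 < s + m)},
    {j | (j = 0 ∧ p = false) ∨ (j = 1 ∧ q = false) ∨ (2 ≤ (j : ℕ) ∧ s + m ≤ (j : ℕ) + 1)},
    ?_, ?_, ?_⟩
  · rw [Set.disjoint_left]
    rintro j (⟨rfl, hp1⟩ | ⟨rfl, hp1⟩ | ⟨h3, h4⟩) (⟨h5, h6⟩ | ⟨h5, h6⟩ | ⟨h5, h6⟩)
    · rw [hp1] at h6; cases h6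
    · simp at h5
    · simp at h5
    · simp at h5
    · rw [hp1] at h6; cases h6
    · simp at h5
    · rw [h5] at h3; simp at h3
    · rw [h5] at h3; simp at h3
    · omega
  · intro y hy
    refine ⟨hp _ _ (fun h => hy 0 (Or.inl ⟨rfl, h⟩)) (fun h => hy 1 (Or.inr (Or.inl ⟨rfl, h⟩))), ?_⟩
    intro j hj hs hj2
    rw [hy j (Or.inr (Or.inr ⟨hj, hj2⟩))]
    exact h2 j hj hs (by omega)
  · intro y hy
    refine ⟨?_, ?_⟩
    · rw [e4]
      exact hq _ _ (fun h => hy 0 (Or.inl ⟨rfl, h⟩)) (fun h => hy 1 (Or.inr (Or.inl ⟨rfl, h⟩)))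
    · intro j hj hs hj2
      rw [hy j (Or.inr (Or.inr ⟨hj, hs⟩))]
      exact h2 j hj (by omega) (by omega)

theorem G_one (d s : ℕ) : G d s 1 ⊆ fac d s := by
  rintro x ⟨h1, h2⟩
  unfold fac
  rcases s with _ | _ | _ | s
  · simpa [g] using h1
  · simpa [g] using h1
  · simpa [g] using h1
  · rw [if_neg (by omega), if_neg (by omega)]
    intro j hj
    exact h2 j (by omega) (by omega) (by omega)

theorem fac_ne (d i : ℕ) (hi : i < d + 3) : fac d i ≠ Set.univ := by
  intro h
  by_cases h1 : i = 1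
  · have : (fun j : Fin (d + 2) => decide (j = 1)) ∈ fac d i := by rw [h]; trivial
    simp [fac, h1] at this
  · have : (fun _ : Fin (d + 2) => true) ∈ fac d i := by rw [h]; trivial
    by_cases h2 : i ≤ 2
    · simp [fac, h1, h2] at this
    · simp only [fac, if_neg h1, if_neg h2] at this
      have := this ⟨i - 1, by omega⟩ (by simp; omega)
      cases this

theorem simul_empty (d : ℕ) (A : ℕ → Set (Fin (d + 2) → Bool))
    (hA : ∀ i < d + 3, A i ≠ Set.univ) : simul (d + 3) A = ∅ := by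
  rw [Set.eq_empty_iff_forall_notMem]
  rintro x ⟨K, hd, hK⟩
  have hne : ∀ i, (K i).Nonempty := by
    intro i
    by_contra hc
    rw [Set.not_nonempty_iff_eq_empty] at hc
    refine hA i i.2 (Set.eq_univ_of_univ_subset fun y _ => hK i ?_)
    rw [hc]
    intro j hj
    exact absurd hj (Set.notMem_empty j)
  choose f hf using hne
  have hinj : Function.Injective f := by
    intro i j hij
    by_contra hc
    exact Set.disjoint_left.1 (hd i j hc) (hf i) (hij ▸ hf j)
  have := Fintype.card_le_of_injective f hinj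
  simp at this

/-- for every `r ≥ 3` there are `r` proper subsets of a cube `{0, 1} ^ d` whose simultaneous
product is empty, hence strictly contained in the intersection of all bracketed products, which is
nonempty -/
theorem result (r : ℕ) (hr : 3 ≤ r) : ∃ (d : ℕ) (A : ℕ → Set (Fin d → Bool)),
    1 ≤ d ∧ (∀ i < r, A i ≠ Set.univ) ∧ simul r A = ∅ ∧ simul r A ⊂ inter r A := by
  obtain ⟨d, rfl⟩ : ∃ d, r = d + 3 := ⟨r - 3, by omega⟩
  have hs := simul_empty d (fac d) (fac_ne d)
  refine ⟨d + 2, fac d, by omega, fac_ne d, hs, ?_⟩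
  rw [hs, Set.empty_ssubset]
  refine ⟨fun _ => false, fun T hT => ?_⟩
  refine lower (fac d) (G d) (G_one d) (fun s m n hm hn => G_split d s m n hm hn) T 0 ?_
  rw [hT]
  refine ⟨?_, fun _ _ _ _ => rfl⟩
  simp [g]

end Pool.Agent.Results.MP_3c3b39_pr.StrictForAllR
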